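import Pool.Agent.H24.KTH.Geo

/-!
# KTH: row PT4, the point from the two directions
-/

set_option autoImplicit false

namespace Pool.Agent.H24.KTH

open Finset Real
open Pool.Agent.H49.Ent Pool.Agent.H32.Dense

namespace H2PT4

lemma sz_ge' (M : ℕ) (x : ℝ) : Real.log (1 + |x| / M) ≤ sz M x := by
  unfold sz
  have h : 0 ≤ Real.log (1 + M / max |x| 1) := Real.log_nonneg (by
    have : 0 ≤ (M : ℝ) / max |x| 1 := by positivity
    linarith)
  linarith

lemma sz_nonneg (M : ℕ) (x : ℝ) : 0 ≤ sz M x := by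
  refine le_trans ?_ (sz_ge' M x)
  apply Real.log_nonneg
  have : 0 ≤ |x| / M := by positivity
  linarith

lemma dsv_nonneg {d : ℕ} (x y : Fin d → ℤ) : 0 ≤ dsv x y := norm_nonneg _

lemma le_dsv {d : ℕ} (x y : Fin d → ℤ) (k : Fin d) : |(x k : ℝ) - y k| ≤ dsv x y := by
  have h := norm_le_pi_norm (fun k => ((x k - y k : ℤ) : ℝ)) k
  unfold dsv
  rw [Real.norm_eq_abs] at h
  push_cast at h
  push_cast
  exact h

lemma log_eleven : Real.log 11 ≤ 3 := by
  have h : Real.log 11 ≤ (3 : ℕ) := log_le_of_pow (by norm_num) (by norm_num)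
  exact_mod_cast h

end H2PT4

open H2PT4 in
theorem pt4_thm : PT4Stmt := by
  intro d
  refine ⟨3 * d + 12, ?_⟩
  intro Ω _ ζ M q Z w uw v s c X hPt
  have hq := hPt.fam.hp
  have h1 := hPt.fam.h1
  have hM := hPt.fam.hM
  have hM1 : (1 : ℝ) ≤ M := by exact_mod_cast hM
  have hM0 : (0 : ℝ) < M := by linarith
  set E : ℝ := Ex q (fun ω => sz M (c ω)) with hE
  have hE0 : 0 ≤ E := Ex_nonneg hq fun ω _ => sz_nonneg M _
  set T : Ω → ℤ := fun ω => s ω + c ω with hT
  set N : Ω → ℤ := fun ω => ⌊(s ω : ℝ) * dsv (v ω) (w ω) / M⌋ with hN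
  -- step 1: split off the time
  have st1 : CH q (fun ω => (s ω + c ω, X ω)) (fun ω => (v ω, w ω, Z ω)) =
      CH q T (fun ω => (v ω, w ω, Z ω)) + CH q X (fun ω => (T ω, (v ω, w ω, Z ω))) := by
    rw [← CH_chain hq]
    refine CH_congr hq ?_ ?_ (fun _ _ _ _ h => h) (fun _ _ _ _ h => h) <;>
    · intro ω ω' _ _ e
      simp only [Prod.mk.injEq] at e ⊢
      tauto
  -- step 2: the time
  have st2 : CH q T (fun ω => (v ω, w ω, Z ω)) ≤ Real.log M + 1.01 * (1 + E) + 6 := by
    have h2 := CH_le_tail hM hq h1 T (fun ω => (v ω, w ω, Z ω))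
    have h3 : Ex q (fun ω => Real.log (1 + |(T ω : ℝ)| / M)) ≤ Ex q (fun ω => 1 + sz M (c ω)) := by
      refine Ex_mono hq fun ω hω => ?_
      have r1 : (0 : ℝ) ≤ s ω := by exact_mod_cast (hPt.fam.hτ ω hω).1
      have r2 : (s ω : ℝ) < M := by exact_mod_cast (hPt.fam.hτ ω hω).2
      have h4 : |(T ω : ℝ)| ≤ M + |(c ω : ℝ)| := by
        rw [hT]
        push_cast
        calc |(s ω : ℝ) + c ω| ≤ |(s ω : ℝ)| + |(c ω : ℝ)| := abs_add_le _ _
          _ ≤ M + |(c ω : ℝ)| := by
            have : |(s ω : ℝ)| ≤ M := by rw [abs_of_nonneg r1]; exact r2.le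
            linarith
      have h5 : |(T ω : ℝ)| / M ≤ 1 + |(c ω : ℝ)| / M := by
        rw [div_le_iff₀ hM0, add_mul, div_mul_cancel₀ _ hM0.ne']
        linarith
      have h6 : 0 ≤ |(c ω : ℝ)| / M := by positivity
      calc Real.log (1 + |(T ω : ℝ)| / M) ≤ Real.log (2 * (1 + |(c ω : ℝ)| / M)) := by
            apply Real.log_le_log (by positivity)
            linarith
        _ = Real.log 2 + Real.log (1 + |(c ω : ℝ)| / M) :=
            Real.log_mul (by norm_num) (by positivity)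
        _ ≤ 1 + sz M (c ω) := by
            have i1 := log_two_le_one
            have i2 := sz_ge' M (c ω)
            linarith
    rw [Ex_add, Ex_const h1, ← hE] at h3
    have h4 : (1.01 : ℝ) * Ex q (fun ω => Real.log (1 + |(T ω : ℝ)| / M)) ≤ 1.01 * (1 + E) :=
      mul_le_mul_of_nonneg_left h3 (by norm_num)
    linarith
  -- step 3: insert `N`
  have st3 := CH_le_add hq X N (fun ω => (T ω, (v ω, w ω, Z ω)))
  have st4 : CH q N (fun ω => (T ω, (v ω, w ω, Z ω))) ≤
      1 + Real.log M - Ex q (fun ω => lvv M (v ω) (w ω)) := by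
    have h2 := CH_le_card hq h1 N (fun ω => (T ω, (v ω, w ω, Z ω)))
      (fun z => Finset.Icc 0 ⌊dsv z.2.1 z.2.2.1⌋) (by
        intro ω hω
        have r1 : (0 : ℝ) ≤ s ω := by exact_mod_cast (hPt.fam.hτ ω hω).1
        have r2 : (s ω : ℝ) < M := by exact_mod_cast (hPt.fam.hτ ω hω).2
        have r3 := dsv_nonneg (v ω) (w ω)
        rw [Finset.mem_Icc]
        constructor
        · exact Int.floor_nonneg.mpr (by positivity)
        · apply Int.floor_le_floor
          rw [div_le_iff₀ hM0]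
          nlinarith)
    refine h2.trans ?_
    have h3 : Ex q (fun ω => Real.log ((Finset.Icc 0 ⌊dsv (v ω) (w ω)⌋).card : ℝ)) ≤
        Ex q (fun ω => (1 + Real.log M) - lvv M (v ω) (w ω)) := by
      refine Ex_mono hq fun ω hω => ?_
      have r3 := dsv_nonneg (v ω) (w ω)
      have h4 : 0 ≤ ⌊dsv (v ω) (w ω)⌋ := Int.floor_nonneg.mpr r3
      have h5 : ((Finset.Icc 0 ⌊dsv (v ω) (w ω)⌋).card : ℝ) = (⌊dsv (v ω) (w ω)⌋ : ℝ) + 1 := by
        rw [Int.card_Icc, sub_zero]
        have : ((⌊dsv (v ω) (w ω)⌋ + 1).toNat : ℤ) = ⌊dsv (v ω) (w ω)⌋ + 1 :=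
          Int.toNat_of_nonneg (by linarith)
        exact_mod_cast this
      have h4R : (0 : ℝ) ≤ (⌊dsv (v ω) (w ω)⌋ : ℝ) := by exact_mod_cast h4
      have h6 : (⌊dsv (v ω) (w ω)⌋ : ℝ) ≤ dsv (v ω) (w ω) := Int.floor_le _
      set D : ℝ := max (dsv (v ω) (w ω)) 1 with hD
      have hD1 : 1 ≤ D := le_max_right _ _
      have hD2 : dsv (v ω) (w ω) ≤ D := le_max_left _ _
      have h7 : lvv M (v ω) (w ω) = Real.log M - Real.log D := by
        unfold lvv
        rw [← hD, Real.log_div hM0.ne' (by positivity)]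
      rw [h5, h7]
      calc Real.log ((⌊dsv (v ω) (w ω)⌋ : ℝ) + 1) ≤ Real.log (2 * D) := by
            apply Real.log_le_log (by linarith)
            linarith
        _ = Real.log 2 + Real.log D := Real.log_mul (by norm_num) (by positivity)
        _ ≤ (1 + Real.log M) - (Real.log M - Real.log D) := by
            have := log_two_le_one
            linarith
    refine h3.trans ?_
    rw [Ex_sub, Ex_const h1]
  -- step 5: the point
  have st5 : CH q X (fun ω => (N ω, (T ω, (v ω, w ω, Z ω)))) ≤ d * 3 := by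
    have h2 := CH_le_vec hq h1 X (fun ω => (N ω, (T ω, (v ω, w ω, Z ω)))) (fun _ => 5) (by
      intro ω ω' hω hω' e k
      simp only [Prod.mk.injEq] at e
      obtain ⟨e1, e2, e3, e4, e5⟩ := e
      have eu : uw ω = uw ω' := hPt.fam.hu ω ω' hω hω' (by
        simp only [Prod.mk.injEq]
        exact ⟨e4, e5⟩)
      have a1 := abs_le.mp (hPt.hX ω hω k)
      have a2 := abs_le.mp (hPt.hX ω' hω' k)
      unfold pos at a1 a2
      rw [← eu, ← e3, ← e4] at a2
      have f1 := Int.abs_sub_lt_one_of_floor_eq_floor e1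
      rw [← e3, ← e4] at f1
      have e2' : (s ω : ℝ) + c ω = s ω' + c ω' := by exact_mod_cast e2
      have f2 : |((s ω : ℝ) - s ω') / M * ((w ω k : ℝ) - v ω k)| ≤ 1 := by
        rw [abs_mul]
        have f3 := le_dsv (v ω) (w ω) k
        rw [abs_sub_comm] at f3
        calc |((s ω : ℝ) - s ω') / M| * |(w ω k : ℝ) - v ω k| ≤
              |((s ω : ℝ) - s ω') / M| * dsv (v ω) (w ω) :=
              mul_le_mul_of_nonneg_left f3 (abs_nonneg _)
          _ = |(s ω : ℝ) * dsv (v ω) (w ω) / M - (s ω' : ℝ) * dsv (v ω) (w ω) / M| := by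
              rw [← abs_of_nonneg (dsv_nonneg (v ω) (w ω)), ← abs_mul,
                abs_of_nonneg (dsv_nonneg (v ω) (w ω))]
              congr 1
              ring
          _ ≤ 1 := f1.le
      have f4 := abs_le.mp f2
      have e6 : ((uw ω k + (s ω : ℝ) / M * w ω k) + (c ω : ℝ) / M * v ω k) -
          ((uw ω k + (s ω' : ℝ) / M * w ω k) + (c ω' : ℝ) / M * v ω k) =
          ((s ω : ℝ) - s ω') / M * ((w ω k : ℝ) - v ω k) := by
        have : (c ω' : ℝ) = s ω + c ω - s ω' := by linarith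
        rw [this]
        ring
      push_cast
      rw [abs_le]
      constructor <;> linarith [a1.1, a1.2, a2.1, a2.2, f4.1, f4.2])
    rw [Ex_const h1] at h2
    refine h2.trans ?_
    have h3 : Real.log (2 * 5 + 1) ≤ 3 := by
      have := log_eleven
      norm_num at this ⊢
      exact this
    exact mul_le_mul_of_nonneg_left h3 (Nat.cast_nonneg d)
  rw [st1]
  have hd : (0 : ℝ) ≤ d := Nat.cast_nonneg d
  have hdE : 0 ≤ (d : ℝ) * E := mul_nonneg hd hE0
  nlinarith

end Pool.Agent.H24.KTH
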