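import Pool.Agent.H24.KTH.Geo

/-!
# KTH: row TIA, three elementary facts on times
-/

set_option autoImplicit false

namespace Pool.Agent.H24.KTH

open Finset Real
open Pool.Agent.H49.Ent Pool.Agent.H32.Dense

namespace H2TIA

lemma one_le_mx (x : ℝ) : (1 : ℝ) ≤ max |x| 1 := le_max_right _ _

lemma mx_pos (x : ℝ) : (0 : ℝ) < max |x| 1 := lt_of_lt_of_le one_pos (le_max_right _ _)

lemma sz_ge (M : ℕ) (x : ℝ) : Real.log (1 + M / max |x| 1) ≤ sz M x := by
  unfold sz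
  have h : 0 ≤ Real.log (1 + |x| / M) := Real.log_nonneg (by
    have : 0 ≤ |x| / M := by positivity
    linarith)
  linarith

lemma sz_nonneg (M : ℕ) (x : ℝ) : 0 ≤ sz M x := by
  refine le_trans ?_ (sz_ge M x)
  apply Real.log_nonneg
  have : 0 ≤ (M : ℝ) / max |x| 1 := by positivity
  linarith

lemma log_le_nat (x : ℝ) (n : ℕ) (hx : 0 < x) (h : x ≤ 2.7 ^ n) : Real.log x ≤ n := by
  rw [Real.log_le_iff_le_exp hx]
  have h1 := Real.exp_one_gt_d9
  calc x ≤ 2.7 ^ n := h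
    _ ≤ (Real.exp 1) ^ n := by
        apply pow_le_pow_left₀ (by norm_num); linarith
    _ = Real.exp n := by rw [← Real.exp_nat_mul]; norm_num

/-- the coefficient -/
lemma kap_sub {a b τ τ' : ℤ} :
    kap a b τ - kap a b τ' = ((a : ℝ) - b) * ((hat a b τ' : ℝ) - hat a b τ) /
      (((hat a b τ : ℝ) - a) * ((hat a b τ' : ℝ) - a)) := by
  obtain ⟨h1, -, -, -⟩ := hat_spec a b τ
  obtain ⟨h1', -, -, -⟩ := hat_spec a b τ'
  have e1 : (hat a b τ : ℝ) - a ≠ 0 := sub_ne_zero.mpr (by exact_mod_cast h1)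
  have e2 : (hat a b τ' : ℝ) - a ≠ 0 := sub_ne_zero.mpr (by exact_mod_cast h1')
  unfold kap
  field_simp
  ring

/-- the time from the rounded coefficient -/
lemma time_close {M : ℕ} (hM : 0 < M) {a b τ τ' c : ℤ} (ha : 0 ≤ a ∧ a < M) (hb : 0 ≤ b ∧ b < M)
    (ht : 0 ≤ τ ∧ τ < M) (ht' : 0 ≤ τ' ∧ τ' < M)
    (h : ⌊kap a b τ * (c : ℝ)⌋ = ⌊kap a b τ' * (c : ℝ)⌋) :
    |((τ - τ' : ℤ) : ℝ)| ≤ 2 + 9 * ((M / max |(a : ℝ) - b| 1) * (1 + M / max |(c : ℝ)| 1)) := by
  have hM1 : (1 : ℝ) ≤ M := by exact_mod_cast hM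
  have hM0 : (0 : ℝ) < M := by linarith
  have ra1 : (0 : ℝ) ≤ a := by exact_mod_cast ha.1
  have ra2 : (a : ℝ) < M := by exact_mod_cast ha.2
  have rb1 : (0 : ℝ) ≤ b := by exact_mod_cast hb.1
  have rb2 : (b : ℝ) < M := by exact_mod_cast hb.2
  have rt1 : (0 : ℝ) ≤ τ := by exact_mod_cast ht.1
  have rt2 : (τ : ℝ) < M := by exact_mod_cast ht.2
  have rt1' : (0 : ℝ) ≤ τ' := by exact_mod_cast ht'.1
  have rt2' : (τ' : ℝ) < M := by exact_mod_cast ht'.2
  have hA : 1 ≤ (M : ℝ) / max |(a : ℝ) - b| 1 := by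
    rw [one_le_div (mx_pos _)]
    exact max_le (abs_le.mpr ⟨by linarith, by linarith⟩) hM1
  have hB : 1 ≤ 1 + (M : ℝ) / max |(c : ℝ)| 1 := by
    have : 0 ≤ (M : ℝ) / max |(c : ℝ)| 1 := by positivity
    linarith
  have htt : |((τ - τ' : ℤ) : ℝ)| ≤ M := by
    push_cast
    exact abs_le.mpr ⟨by linarith, by linarith⟩
  by_cases hab : a = b
  · have e : (M : ℝ) / max |(a : ℝ) - b| 1 = M := by
      rw [hab, sub_self, abs_zero, max_eq_right zero_le_one, div_one]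
    rw [e]
    nlinarith
  by_cases hc : c = 0
  · have e : (1 : ℝ) + M / max |(c : ℝ)| 1 = 1 + M := by
      rw [hc, Int.cast_zero, abs_zero, max_eq_right zero_le_one, div_one]
    rw [e]
    nlinarith
  -- the general case
  have hab1 : (1 : ℝ) ≤ |(a : ℝ) - b| := by
    have : (1 : ℤ) ≤ |a - b| := Int.one_le_abs (sub_ne_zero.mpr hab)
    exact_mod_cast this
  have hc1 : (1 : ℝ) ≤ |(c : ℝ)| := by
    have : (1 : ℤ) ≤ |c| := Int.one_le_abs hc
    exact_mod_cast this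
  rw [max_eq_left hab1, max_eq_left hc1]
  obtain ⟨h1, -, h3, h4⟩ := hat_spec a b τ
  obtain ⟨h1', -, h3', h4'⟩ := hat_spec a b τ'
  set x : ℝ := (hat a b τ : ℝ) with hx
  set x' : ℝ := (hat a b τ' : ℝ) with hx'
  have x3 : (τ : ℝ) ≤ x := by rw [hx]; exact_mod_cast h3
  have x4 : x ≤ τ + 2 := by rw [hx]; exact_mod_cast h4
  have x3' : (τ' : ℝ) ≤ x' := by rw [hx']; exact_mod_cast h3'
  have x4' : x' ≤ τ' + 2 := by rw [hx']; exact_mod_cast h4'
  have e1 : 1 ≤ |x - a| := by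
    have : (1 : ℤ) ≤ |hat a b τ - a| := Int.one_le_abs (sub_ne_zero.mpr h1)
    rw [hx]; exact_mod_cast this
  have e1' : 1 ≤ |x' - a| := by
    have : (1 : ℤ) ≤ |hat a b τ' - a| := Int.one_le_abs (sub_ne_zero.mpr h1')
    rw [hx']; exact_mod_cast this
  have e2 : |x - a| ≤ 3 * M := abs_le.mpr ⟨by linarith, by linarith⟩
  have e2' : |x' - a| ≤ 3 * M := abs_le.mpr ⟨by linarith, by linarith⟩
  have k1 := Int.abs_sub_lt_one_of_floor_eq_floor h
  have k2 : kap a b τ * (c : ℝ) - kap a b τ' * (c : ℝ) = (kap a b τ - kap a b τ') * c := by ring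
  rw [k2, kap_sub, ← hx, ← hx', abs_mul, abs_div, abs_mul, abs_mul] at k1
  have p1 : 0 < |x - a| * |x' - a| := by positivity
  have k3 : |(a : ℝ) - b| * |x' - x| * |(c : ℝ)| < |x - a| * |x' - a| := by
    rw [div_mul_eq_mul_div, div_lt_one p1] at k1
    exact k1
  have k4 : |x - a| * |x' - a| ≤ 9 * (M * M) := by
    calc |x - a| * |x' - a| ≤ (3 * M) * (3 * M) := by gcongr
      _ = 9 * (M * M) := by ring
  have k5 : |x' - x| ≤ 9 * ((M / |(a : ℝ) - b|) * (M / |(c : ℝ)|)) := by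
    have : 9 * ((M / |(a : ℝ) - b|) * (M / |(c : ℝ)|)) = 9 * (M * M) / (|(a : ℝ) - b| * |(c : ℝ)|) := by
      field_simp
    rw [this, le_div_iff₀ (by positivity)]
    nlinarith
  have k6 : |((τ - τ' : ℤ) : ℝ)| ≤ |x' - x| + 2 := by
    push_cast
    rw [abs_le]
    constructor
    · have := le_abs_self (x' - x)
      linarith
    · have := neg_abs_le (x' - x)
      linarith
  have k7 : (M / |(a : ℝ) - b|) * (M / |(c : ℝ)|) ≤ (M / |(a : ℝ) - b|) * (1 + M / |(c : ℝ)|) := by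
    have : 0 ≤ (M : ℝ) / |(a : ℝ) - b| := by positivity
    nlinarith
  linarith

/-- the centre for `b` -/
noncomputable def cen (S a τ c : ℤ) : ℝ :=
  (τ : ℝ) - ((S : ℝ) - τ) / ((a : ℝ) + c - τ) * ((τ : ℝ) - a)

lemma b_close {M : ℕ} (hM : 0 < M) {a b τ c : ℤ} (ha : 0 ≤ a ∧ a < M) (hb : 0 ≤ b ∧ b < M)
    (ht : 0 ≤ τ ∧ τ < M) :
    |(b : ℝ) - cen (b + ⌊kap a b τ * (c : ℝ)⌋) a τ c| ≤
      2 * ((1 + |kap a b τ|) * (1 + M / max |(a : ℝ) + c - τ| 1)) := by
  have hM1 : (1 : ℝ) ≤ M := by exact_mod_cast hM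
  have hM0 : (0 : ℝ) < M := by linarith
  have ra1 : (0 : ℝ) ≤ a := by exact_mod_cast ha.1
  have ra2 : (a : ℝ) < M := by exact_mod_cast ha.2
  have rb1 : (0 : ℝ) ≤ b := by exact_mod_cast hb.1
  have rb2 : (b : ℝ) < M := by exact_mod_cast hb.2
  have rt1 : (0 : ℝ) ≤ τ := by exact_mod_cast ht.1
  have rt2 : (τ : ℝ) < M := by exact_mod_cast ht.2
  set κ : ℝ := kap a b τ with hκ
  have hk0 : 0 ≤ |κ| := abs_nonneg _
  by_cases hD : a + c - τ = 0
  · have hD' : (a : ℝ) + c - τ = 0 := by exact_mod_cast hD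
    have e : cen (b + ⌊κ * (c : ℝ)⌋) a τ c = τ := by
      unfold cen
      rw [hD', div_zero, zero_mul, sub_zero]
    rw [e, hD', abs_zero, max_eq_right zero_le_one, div_one]
    have h1 : |(b : ℝ) - τ| ≤ M := abs_le.mpr ⟨by linarith, by linarith⟩
    nlinarith
  have hD1 : (1 : ℝ) ≤ |(a : ℝ) + c - τ| := by
    have : (1 : ℤ) ≤ |a + c - τ| := Int.one_le_abs hD
    exact_mod_cast this
  have hD' : (a : ℝ) + c - τ ≠ 0 := by
    intro h
    rw [h, abs_zero] at hD1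
    linarith
  rw [max_eq_left hD1]
  obtain ⟨h1, -, h3, h4⟩ := hat_spec a b τ
  set x : ℝ := (hat a b τ : ℝ) with hx
  have x3 : (τ : ℝ) ≤ x := by rw [hx]; exact_mod_cast h3
  have x4 : x ≤ τ + 2 := by rw [hx]; exact_mod_cast h4
  have e1 : x - a ≠ 0 := sub_ne_zero.mpr (by rw [hx]; exact_mod_cast h1)
  have hκx : κ * (x - a) = x - b := by
    rw [hκ]
    unfold kap
    rw [← hx]
    field_simp
  set D : ℝ := (a : ℝ) + c - τ with hDdef
  set f : ℝ := ((⌊κ * (c : ℝ)⌋ : ℤ) : ℝ) with hf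
  have f1 : f ≤ κ * c := Int.floor_le _
  have f2 : κ * c < f + 1 := Int.lt_floor_add_one _
  -- `S - τ = κ D + error`
  have key : ((b : ℝ) + f) - τ - κ * D = (x - τ) - κ * (x - τ) - (κ * c - f) := by
    rw [hDdef]
    linear_combination hκx
  have err : |((b : ℝ) + f) - τ - κ * D| ≤ 2 + 2 * |κ| := by
    rw [key]
    have i1 : |κ * (x - τ)| ≤ 2 * |κ| := by
      rw [abs_mul, mul_comm 2]
      apply mul_le_mul_of_nonneg_left _ hk0
      exact abs_le.mpr ⟨by linarith, by linarith⟩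
    have i2 := abs_le.mp i1
    rw [abs_le]
    constructor <;> linarith [i2.1, i2.2]
  have hcen : cen (b + ⌊κ * (c : ℝ)⌋) a τ c = τ - (((b : ℝ) + f) - τ) / D * ((τ : ℝ) - a) := by
    unfold cen
    rw [← hDdef, hf]
    push_cast
    ring
  rw [hcen]
  have e2 : (b : ℝ) - (τ - (((b : ℝ) + f) - τ) / D * ((τ : ℝ) - a)) =
      (x - τ) - κ * (x - τ) + (((b : ℝ) + f) - τ - κ * D) / D * ((τ : ℝ) - a) := by
    have : (((b : ℝ) + f) - τ - κ * D) / D = (((b : ℝ) + f) - τ) / D - κ := by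
      rw [sub_div, mul_div_assoc, div_self hD', mul_one]
    rw [this]
    linear_combination hκx
  rw [e2]
  have g1 : |(x - τ) - κ * (x - τ)| ≤ 2 * (1 + |κ|) := by
    have i1 : |κ * (x - τ)| ≤ 2 * |κ| := by
      rw [abs_mul, mul_comm 2]
      apply mul_le_mul_of_nonneg_left _ hk0
      exact abs_le.mpr ⟨by linarith, by linarith⟩
    have i2 := abs_le.mp i1
    rw [abs_le]
    constructor <;> linarith [i2.1, i2.2]
  have g2 : |(((b : ℝ) + f) - τ - κ * D) / D * ((τ : ℝ) - a)| ≤ 2 * (1 + |κ|) * (M / |D|) := by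
    rw [abs_mul, abs_div]
    have i1 : |(τ : ℝ) - a| ≤ M := abs_le.mpr ⟨by linarith, by linarith⟩
    have hDpos : 0 < |D| := by linarith
    calc |((b : ℝ) + f) - τ - κ * D| / |D| * |(τ : ℝ) - a| ≤ (2 + 2 * |κ|) / |D| * M := by
          gcongr
      _ = 2 * (1 + |κ|) * (M / |D|) := by ring
  calc _ ≤ |(x - τ) - κ * (x - τ)| + |(((b : ℝ) + f) - τ - κ * D) / D * ((τ : ℝ) - a)| :=
        abs_add_le _ _
    _ ≤ 2 * (1 + |κ|) + 2 * (1 + |κ|) * (M / |D|) := add_le_add g1 g2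
    _ = _ := by ring

end H2TIA

open H2TIA in
theorem tia_thm : TIAStmt := by
  intro hVEC
  refine ⟨14, ?_⟩
  intro Ω _ M q a b τ c c' hM hq h1 ha hb ht hc'
  have hM1 : (1 : ℝ) ≤ M := by exact_mod_cast hM
  have hE1 : 0 ≤ Ex q (fun ω => ell M (a ω) (b ω)) :=
    Ex_nonneg hq fun ω hω => ell_nonneg hM (ha ω hω) (hb ω hω)
  have hE2 : 0 ≤ Ex q (fun ω => sz M (c ω)) := Ex_nonneg hq fun ω _ => sz_nonneg M _
  have hE3 : 0 ≤ Ex q (fun ω => Real.log (1 + |kap (a ω) (b ω) (τ ω)|⁻¹)) :=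
    Ex_nonneg hq fun ω _ => Real.log_nonneg (by
      have : 0 ≤ |kap (a ω) (b ω) (τ ω)|⁻¹ := by positivity
      linarith)
  have hE4 : 0 ≤ Ex q (fun ω => sz M ((a ω : ℝ) + c ω - τ ω)) :=
    Ex_nonneg hq fun ω _ => sz_nonneg M _
  have hE5 : 0 ≤ Ex q (fun ω => Real.log (1 + |kap (a ω) (b ω) (τ ω)|)) :=
    Ex_nonneg hq fun ω _ => Real.log_nonneg (by
      have : 0 ≤ |kap (a ω) (b ω) (τ ω)| := abs_nonneg _
      linarith)
  refine ⟨?_, ?_, ?_⟩
  · have h2 := CH_le_int hq h1 τ (fun ω => (c' ω, c ω, a ω, b ω))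
      (fun ω => 2 + 9 * ((M / max |(a ω : ℝ) - b ω| 1) * (1 + M / max |(c ω : ℝ)| 1))) (by
        intro ω ω' hω hω' e
        simp only [Prod.mk.injEq] at e
        obtain ⟨e1, e2, e3, e4⟩ := e
        rw [hc' ω, hc' ω', ← e2, ← e3, ← e4] at e1
        exact time_close hM (ha ω hω) (hb ω hω) (ht ω hω) (ht ω' hω') e1)
    refine h2.trans ?_
    have h3 : Ex q (fun ω => Real.log (2 * (2 + 9 * ((M / max |(a ω : ℝ) - b ω| 1) *
        (1 + M / max |(c ω : ℝ)| 1))) + 1)) ≤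
        Ex q (fun ω => (4 + ell M (a ω) (b ω)) + sz M (c ω)) := by
      refine Ex_mono hq fun ω hω => ?_
      have ra1 : (0 : ℝ) ≤ a ω := by exact_mod_cast (ha ω hω).1
      have ra2 : (a ω : ℝ) < M := by exact_mod_cast (ha ω hω).2
      have rb1 : (0 : ℝ) ≤ b ω := by exact_mod_cast (hb ω hω).1
      have rb2 : (b ω : ℝ) < M := by exact_mod_cast (hb ω hω).2
      have hA : 1 ≤ (M : ℝ) / max |(a ω : ℝ) - b ω| 1 := by
        rw [one_le_div (mx_pos _)]
        exact max_le (abs_le.mpr ⟨by linarith, by linarith⟩) hM1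
      have hB : 1 ≤ 1 + (M : ℝ) / max |(c ω : ℝ)| 1 := by
        have : 0 ≤ (M : ℝ) / max |(c ω : ℝ)| 1 := by positivity
        linarith
      set A : ℝ := (M : ℝ) / max |(a ω : ℝ) - b ω| 1 with hAdef
      set B : ℝ := 1 + (M : ℝ) / max |(c ω : ℝ)| 1 with hBdef
      have hAB : 1 ≤ A * B := by nlinarith
      calc Real.log (2 * (2 + 9 * (A * B)) + 1) ≤ Real.log (23 * (A * B)) := by
            apply Real.log_le_log (by positivity)
            linarith
        _ = Real.log 23 + (Real.log A + Real.log B) := by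
            rw [Real.log_mul (by norm_num) (by positivity),
              Real.log_mul (by positivity) (by positivity)]
        _ ≤ (4 + ell M (a ω) (b ω)) + sz M (c ω) := by
            have i1 := log_le_nat 23 4 (by norm_num) (by norm_num)
            push_cast at i1
            have i2 : Real.log A = ell M (a ω) (b ω) := rfl
            have i3 : Real.log B ≤ sz M (c ω) := sz_ge M _
            linarith
    refine h3.trans ?_
    rw [Ex_add, Ex_add, Ex_const h1]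
    linarith
  · have h2 := CH_le_int hq h1 c (fun ω => (c' ω, a ω, b ω, τ ω))
      (fun ω => |kap (a ω) (b ω) (τ ω)|⁻¹) (by
        intro ω ω' hω hω' e
        simp only [Prod.mk.injEq] at e
        obtain ⟨e1, e2, e3, e4⟩ := e
        rw [hc' ω, hc' ω', ← e2, ← e3, ← e4] at e1
        push_cast
        exact floor_eq_close (kap_pos _ _ _) e1)
    refine h2.trans ?_
    have h3 : Ex q (fun ω => Real.log (2 * |kap (a ω) (b ω) (τ ω)|⁻¹ + 1)) ≤
        Ex q (fun ω => 1 + Real.log (1 + |kap (a ω) (b ω) (τ ω)|⁻¹)) :=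
      Ex_mono hq fun ω _ => log_two_mul_add (by positivity)
    refine h3.trans ?_
    rw [Ex_add, Ex_const h1]
    linarith
  · have h2 := hVEC 1 Ω _ q (fun ω => (b ω + c' ω, a ω, τ ω, c ω)) (fun ω (_ : Fin 1) => b ω)
      (fun ω (_ : Fin 1) => cen (b ω + c' ω) (a ω) (τ ω) (c ω))
      (fun ω => 2 * ((1 + |kap (a ω) (b ω) (τ ω)|) * (1 + M / max |(a ω : ℝ) + c ω - τ ω| 1)))
      hq h1 (by
        intro ω ω' _ _ e
        simp only [Prod.mk.injEq] at e
        obtain ⟨e1, e2, e3, e4⟩ := e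
        funext k
        show cen (b ω + c' ω) (a ω) (τ ω) (c ω) = cen (b ω' + c' ω') (a ω') (τ ω') (c ω')
        rw [e1, e2, e3, e4]) (by
        intro ω hω k
        rw [hc' ω]
        exact b_close hM (ha ω hω) (hb ω hω) (ht ω hω))
    have h4 : CH q b (fun ω => (b ω + c' ω, a ω, τ ω, c ω)) =
        CH q (fun ω (_ : Fin 1) => b ω) (fun ω => (b ω + c' ω, a ω, τ ω, c ω)) := by
      refine CH_congr hq ?_ ?_ (fun _ _ _ _ h => h) (fun _ _ _ _ h => h)
      · intro ω ω' _ _ hh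
        funext k
        exact (Prod.ext_iff.mp hh).1
      · intro ω ω' _ _ hh
        exact congrFun (Prod.ext_iff.mp hh).1 0
    rw [h4]
    refine h2.trans ?_
    have h3 : Ex q (fun ω => Real.log (1 + 2 * ((1 + |kap (a ω) (b ω) (τ ω)|) *
        (1 + M / max |(a ω : ℝ) + c ω - τ ω| 1)))) ≤
        Ex q (fun ω => (2 + Real.log (1 + |kap (a ω) (b ω) (τ ω)|)) +
          sz M ((a ω : ℝ) + c ω - τ ω)) := by
      refine Ex_mono hq fun ω hω => ?_
      have hA : 1 ≤ 1 + |kap (a ω) (b ω) (τ ω)| := by linarith [abs_nonneg (kap (a ω) (b ω) (τ ω))]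
      have hB : 1 ≤ 1 + (M : ℝ) / max |(a ω : ℝ) + c ω - τ ω| 1 := by
        have : 0 ≤ (M : ℝ) / max |(a ω : ℝ) + c ω - τ ω| 1 := by positivity
        linarith
      set A : ℝ := 1 + |kap (a ω) (b ω) (τ ω)| with hAdef
      set B : ℝ := 1 + (M : ℝ) / max |(a ω : ℝ) + c ω - τ ω| 1 with hBdef
      have hAB : 1 ≤ A * B := by nlinarith
      calc Real.log (1 + 2 * (A * B)) ≤ Real.log (3 * (A * B)) := by
            apply Real.log_le_log (by positivity)
            linarith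
        _ = Real.log 3 + (Real.log A + Real.log B) := by
            rw [Real.log_mul (by norm_num) (by positivity),
              Real.log_mul (by positivity) (by positivity)]
        _ ≤ (2 + Real.log A) + sz M ((a ω : ℝ) + c ω - τ ω) := by
            have i1 := log_le_nat 3 2 (by norm_num) (by norm_num)
            push_cast at i1
            have i3 : Real.log B ≤ sz M ((a ω : ℝ) + c ω - τ ω) := sz_ge M _
            linarith
    have h5 : Ex q (fun ω => (2 + Real.log (1 + |kap (a ω) (b ω) (τ ω)|)) +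
          sz M ((a ω : ℝ) + c ω - τ ω)) =
        2 + Ex q (fun ω => Real.log (1 + |kap (a ω) (b ω) (τ ω)|)) +
          Ex q (fun ω => sz M ((a ω : ℝ) + c ω - τ ω)) := by
      rw [Ex_add, Ex_add, Ex_const h1]
    rw [h5] at h3
    push_cast
    linarith

end Pool.Agent.H24.KTH
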